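import Pool.Agent.R977.MH13

/-!
# Diagonal limit of products of projected Haar unitaries

Let `S_1, S_2, …` be independent Haar unitaries in `U(N)`, `P_N` an orthogonal projection of rank
`N - 1` and `B_L = (P S_L) ⋯ (P S_1)`.  If `L_N / N → τ > 0`, then the empirical law of the
eigenvalues of `B_{L_N}† B_{L_N}` converges in probability to `μ_τ`, the probability measure on
`[0,1]` with moments `m_p(τ) = exp(-pτ) ∑_{k<p} (1 - k/p) (pτ)^k / k!`.
-/

set_option autoImplicit false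

namespace Pool.Agent.Results.MP_31dc4f_pr.DiagonalLimit

open Matrix MeasureTheory ProbabilityTheory Filter Topology

/-- `B_L = (P S_L) ⋯ (P S_1)`; the unitary `S i` here is the `S_{i+1}` of the problem. -/
noncomputable def BL {N : ℕ} (P : Matrix (Fin N) (Fin N) ℂ)
    (S : ℕ → Matrix.unitaryGroup (Fin N) ℂ) : ℕ → Matrix (Fin N) (Fin N) ℂ
  | 0 => 1
  | (L+1) => (P * (S L : Matrix (Fin N) (Fin N) ℂ)) * BL P S L

/-- `∫ f dμ_{N,L}`, the average of `f` over the `N` eigenvalues (with multiplicity) of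
`B_L† B_L`. -/
noncomputable def empiricalIntegral {N : ℕ} (P : Matrix (Fin N) (Fin N) ℂ)
    (S : ℕ → Matrix.unitaryGroup (Fin N) ℂ) (L : ℕ) (f : ℝ → ℝ) : ℝ :=
  (1 / (N:ℝ)) * ∑ k, f ((isHermitian_conjTranspose_mul_self (BL P S L)).eigenvalues k)

/-- `μ` is `μ_τ`: a probability measure on `[0,1]` with `∫ x^p dμ = m_p(τ)` for all `p ≥ 1`. -/
def IsMuTau (τ : ℝ) (μ : Measure ℝ) : Prop :=
  IsProbabilityMeasure μ ∧ μ (Set.Icc 0 1)ᶜ = 0 ∧ ∀ p : ℕ, 1 ≤ p →
    ∫ x, x ^ p ∂μ = Real.exp (-(p * τ)) *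
      ∑ k ∈ Finset.range p, (1 - (k:ℝ) / p) * ((p * τ) ^ k / (k.factorial : ℝ))

/-- `P` is an orthogonal projection of rank `N - 1`. -/
def IsCorankOneProjection {N : ℕ} (P : Matrix (Fin N) (Fin N) ℂ) : Prop :=
  P.IsHermitian ∧ P * P = P ∧ P.rank = N - 1

theorem BL_eq {N : ℕ} (P : Matrix (Fin N) (Fin N) ℂ) (S : ℕ → Matrix.unitaryGroup (Fin N) ℂ) :
    BL P S = R977MH.prodB P S := by
  funext L
  induction L with
  | zero => rfl
  | succ L ih => simp only [BL, R977MH.prodB, ih]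

theorem sum_eig_congr {N : ℕ} (A B : Matrix (Fin N) (Fin N) ℂ) (h : A = B) (f : ℝ → ℝ) :
    ∑ k, f ((isHermitian_conjTranspose_mul_self A).eigenvalues k)
      = ∑ k, f ((isHermitian_conjTranspose_mul_self B).eigenvalues k) := by
  subst h
  rfl

theorem empiricalIntegral_eq {N : ℕ} (P : Matrix (Fin N) (Fin N) ℂ)
    (S : ℕ → Matrix.unitaryGroup (Fin N) ℂ) (L : ℕ) (f : ℝ → ℝ) :
    empiricalIntegral P S L f = R977MH.empInt P S L f := by
  unfold empiricalIntegral R977MH.empInt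
  rw [sum_eig_congr _ _ (congrFun (BL_eq P S) L) f]

/-- For every `τ > 0`, every `L_N` with `L_N / N → τ`, every choice of projections `P_N` of rank
`N - 1` and all independent Haar unitaries, `μ_τ` exists and `μ_{N, L_N} → μ_τ` in probability. -/
theorem result (τ : ℝ) (_hτ : 0 < τ)
    (L : ℕ → ℕ) (hL : Tendsto (fun N => (L N : ℝ) / N) atTop (𝓝 τ))
    (P : ∀ N, Matrix (Fin N) (Fin N) ℂ) (hP : ∀ N, 2 ≤ N → IsCorankOneProjection (P N))
    (Ω : ℕ → Type) [∀ N, MeasurableSpace (Ω N)] (Pr : ∀ N, Measure (Ω N))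
    [∀ N, IsProbabilityMeasure (Pr N)]
    [∀ N, MeasurableSpace (Matrix.unitaryGroup (Fin N) ℂ)]
    [∀ N, BorelSpace (Matrix.unitaryGroup (Fin N) ℂ)]
    (S : ∀ N, ℕ → Ω N → Matrix.unitaryGroup (Fin N) ℂ)
    (hmeas : ∀ N i, Measurable (S N i))
    (hind : ∀ N, iIndepFun (S N) (Pr N))
    (hHaar : ∀ N i, ((Pr N).map (S N i)).IsMulLeftInvariant) :
    (∃ μ : Measure ℝ, IsMuTau τ μ) ∧
    ∀ μ : Measure ℝ, IsMuTau τ μ → ∀ f : ℝ → ℝ, ContinuousOn f (Set.Icc 0 1) →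
      ∀ ε : ℝ, 0 < ε →
        Tendsto (fun N => Pr N {ω | ε < |empiricalIntegral (P N) (fun i => S N i ω) (L N) f
          - ∫ x in Set.Icc 0 1, f x ∂μ|}) atTop (𝓝 0) := by
  refine ⟨R977MH.exists_muTau Pr S hmeas hind hHaar P hP L τ hL, ?_⟩
  intro μ hμ f hf ε hε
  simp_rw [empiricalIntegral_eq]
  exact R977MH.conv_in_prob Pr S hmeas hind hHaar P hP L τ hL hμ f hf ε hε

end Pool.Agent.Results.MP_31dc4f_pr.DiagonalLimit
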